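import Mathlib

set_option autoImplicit false

/-!
# MP_666a49_co: the local dimension of the Boolean lattice

The local dimension of the Boolean lattice of all subsets of an `n`-element set is at most
`n - n / 4` (integer division), and it is equal to `n` exactly for `n ≤ 3`. In particular the
local dimension of the lattice of the subsets of a four-element set is at most `3`.

Upper bound. Four partial linear extensions of the lattice of the subsets of a four-element set
are listed below (`tab`), a subset being coded by a number below `16`; each subset occurs in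
exactly three of them, and they form a local realizer. For general `n` the ground set is divided
into `n / 4` blocks of four elements and at most three single elements. Each block gives four
partial linear extensions (first compare the traces on the block, then the sizes, ...), each single
element gives one linear extension.

Lower bound for `n = 3`. If each element is in at most two members of a local realizer, then
two incomparable elements are in the same two members; so all the six proper nonempty subsets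
are in the same two members, which have to reverse the three pairs (singleton, complement), but
one linear extension reverses at most one of them.
-/

namespace Pool.Agent.Results.MP_666a49_co.BooleanLattice

/-- A partial linear extension of the poset `X`: a (strict) linear order `lt` on a subset
`carrier` of `X` such that `x < y` in `X` implies `lt x y`, for `x, y` in `carrier`. -/
structure Ple (X : Type) [PartialOrder X] where
  carrier : Set X
  lt : carrier → carrier → Prop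
  irrefl : ∀ x, ¬ lt x x
  trans : ∀ x y z, lt x y → lt y z → lt x z
  total : ∀ x y, x ≠ y → lt x y ∨ lt y x
  ext : ∀ x y : carrier, (x : X) < (y : X) → lt x y

/-- `x` and `y` belong to the subset on which `L` is defined, and `x` is before `y` in `L`. -/
def Before {X : Type} [PartialOrder X] (L : Ple X) (x y : X) : Prop :=
  ∃ (hx : x ∈ L.carrier) (hy : y ∈ L.carrier), L.lt ⟨x, hx⟩ ⟨y, hy⟩

/-- A family `F` of partial linear extensions is a local realizer if for all `x < y` there is a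
member with `x` before `y`, and for all incomparable `x, y` there is a member with `x` before `y`
and a member with `y` before `x`. -/
def IsLocalRealizer {X : Type} [PartialOrder X] (F : Set (Ple X)) : Prop :=
  (∀ x y : X, x < y → ∃ L ∈ F, Before L x y) ∧
  (∀ x y : X, ¬ x ≤ y → ¬ y ≤ x → ∃ L₁ ∈ F, ∃ L₂ ∈ F, Before L₁ x y ∧ Before L₂ y x)

/-- The local dimension: the minimum, over all local realizers `F`, of the maximum, over all
`x` in `X`, of the number of the members of `F` that contain `x`. -/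
noncomputable def ldim (X : Type) [PartialOrder X] : ℕ∞ :=
  ⨅ (F : Set (Ple X)) (_ : IsLocalRealizer F), ⨆ x : X, {L | L ∈ F ∧ x ∈ L.carrier}.encard

theorem ldim_le {X ι : Type} [PartialOrder X] (L : ι → Ple X)
    (h : ∀ x y : X, ¬ y ≤ x → ∃ i, Before (L i) x y) (k : ℕ∞)
    (hk : ∀ x : X, {i | x ∈ (L i).carrier}.encard ≤ k) : ldim X ≤ k := by
  have hr : IsLocalRealizer (Set.range L) := by
    refine ⟨fun x y hxy => ?_, fun x y h1 h2 => ?_⟩
    · obtain ⟨i, hi⟩ := h x y (not_le_of_gt hxy)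
      exact ⟨L i, ⟨i, rfl⟩, hi⟩
    · obtain ⟨i, hi⟩ := h x y h2
      obtain ⟨j, hj⟩ := h y x h1
      exact ⟨L i, ⟨i, rfl⟩, L j, ⟨j, rfl⟩, hi, hj⟩
  refine iInf₂_le_of_le (Set.range L) hr (iSup_le fun x => ?_)
  have e : {K | K ∈ Set.range L ∧ x ∈ K.carrier} = L '' {i | x ∈ (L i).carrier} := by
    ext K
    constructor
    · rintro ⟨⟨i, rfl⟩, hi⟩
      exact ⟨i, hi, rfl⟩
    · rintro ⟨i, hi, rfl⟩
      exact ⟨⟨i, rfl⟩, hi⟩
  rw [e]
  exact (Set.encard_image_le _ _).trans (hk x)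

/-- the partial linear extension on `c` that compares first `g` and then `v` -/
def mkPle {X : Type} [PartialOrder X] (c : Set X) (g v : X → ℕ)
    (hg : ∀ x y : X, x ∈ c → y ∈ c → x < y → g x ≤ g y)
    (hv : ∀ x y : X, x < y → v x < v y) (hi : Function.Injective v) : Ple X where
  carrier := c
  lt x y := g x < g y ∨ (g x = g y ∧ v x < v y)
  irrefl x := by omega
  trans x y z := by omega
  total x y hxy := by
    have : v x ≠ v y := fun h => hxy (Subtype.ext (hi h))
    omega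
  ext x y hxy := by
    have h1 := hg x y x.2 y.2 hxy
    have h2 := hv x y hxy
    omega

/-- the tie breaker: first the number of elements, then some enumeration -/
noncomputable def tie (n : ℕ) (S : Finset (Fin n)) : ℕ :=
  S.card * Fintype.card (Finset (Fin n)) + (Fintype.equivFin (Finset (Fin n)) S : ℕ)

theorem tie_lt {n : ℕ} (S T : Finset (Fin n)) (h : S < T) : tie n S < tie n T := by
  have h1 : S.card < T.card := Finset.card_lt_card h
  have h2 := (Fintype.equivFin (Finset (Fin n)) S).isLt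
  unfold tie
  have h3 : (S.card + 1) * Fintype.card (Finset (Fin n)) ≤
      T.card * Fintype.card (Finset (Fin n)) := Nat.mul_le_mul_right _ h1
  rw [Nat.succ_mul] at h3
  omega

theorem tie_inj (n : ℕ) : Function.Injective (tie n) := by
  intro S T h
  have h1 := (Fintype.equivFin (Finset (Fin n)) S).isLt
  have h2 := (Fintype.equivFin (Finset (Fin n)) T).isLt
  have h3 : tie n S % Fintype.card (Finset (Fin n)) = tie n T % Fintype.card (Finset (Fin n)) := by
    rw [h]
  unfold tie at h3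
  rw [Nat.mul_comm, Nat.mul_add_mod, Nat.mul_comm, Nat.mul_add_mod, Nat.mod_eq_of_lt h1,
    Nat.mod_eq_of_lt h2] at h3
  exact (Fintype.equivFin (Finset (Fin n))).injective (Fin.ext h3)

/-- The four partial linear extensions of the lattice of the subsets of `{0, 1, 2, 3}`; the subset
`A` is coded by the sum of the numbers `2 ^ i`, `i ∈ A`. -/
def tab (t : Fin 4) : List ℕ :=
  match t with
  | 0 => [2, 10, 1, 3, 11, 4, 5, 6, 7, 12]
  | 1 => [0, 1, 8, 9, 4, 12, 13, 2, 6, 10, 11, 14, 15]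
  | 2 => [0, 4, 6, 8, 12, 14, 1, 9, 5, 13, 3, 7, 15]
  | 3 => [0, 5, 2, 3, 7, 8, 10, 14, 9, 11, 13, 15]

/-- the code of a subset of `{0, 1, 2, 3}` given by four truth values -/
def code (a b c d : Bool) : ℕ := a.toNat + 2 * b.toNat + 4 * c.toNat + 8 * d.toNat

theorem tab_mono : ∀ t : Fin 4, ∀ a b c d a' b' c' d' : Bool,
    code a b c d ∈ tab t → code a' b' c' d' ∈ tab t →
    (a → a') → (b → b') → (c → c') → (d → d') →
    (tab t).idxOf (code a b c d) ≤ (tab t).idxOf (code a' b' c' d') := by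
  decide +kernel

theorem tab_real : ∀ a b c d a' b' c' d' : Bool,
    ¬ ((a' → a) ∧ (b' → b) ∧ (c' → c) ∧ (d' → d)) →
    ∃ t : Fin 4, code a b c d ∈ tab t ∧ code a' b' c' d' ∈ tab t ∧
      (tab t).idxOf (code a b c d) < (tab t).idxOf (code a' b' c' d') := by
  decide +kernel

theorem tab_freq : ∀ a b c d : Bool,
    (∑ t : Fin 4, if code a b c d ∈ tab t then 1 else 0) = 3 := by
  decide +kernel

/-- is the element with the number `i` in `S` -/
def bit {n : ℕ} (S : Finset (Fin n)) (i : ℕ) : Bool := decide (∃ h : i < n, (⟨i, h⟩ : Fin n) ∈ S)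

theorem bit_mono {n : ℕ} {S T : Finset (Fin n)} (h : S ⊆ T) (i : ℕ) : bit S i → bit T i := by
  simp only [bit, decide_eq_true_eq]
  rintro ⟨hi, hS⟩
  exact ⟨hi, h hS⟩

/-- the code of the trace of `S` on the block with the number `b` -/
def bcode {n : ℕ} (b : ℕ) (S : Finset (Fin n)) : ℕ :=
  code (bit S (4 * b)) (bit S (4 * b + 1)) (bit S (4 * b + 2)) (bit S (4 * b + 3))

/-- The partial linear extensions of the Boolean lattice: four for each block, and one for each
remaining element. -/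
noncomputable def fam (n : ℕ) :
    (Fin (n / 4) × Fin 4) ⊕ Fin (n - 4 * (n / 4)) → Ple (Finset (Fin n))
  | Sum.inl (b, t) => mkPle {S | bcode b S ∈ tab t} (fun S => (tab t).idxOf (bcode b S)) (tie n)
      (fun _ _ hS hT hST => tab_mono t _ _ _ _ _ _ _ _ hS hT (bit_mono hST.1 _) (bit_mono hST.1 _)
        (bit_mono hST.1 _) (bit_mono hST.1 _)) tie_lt (tie_inj n)
  | Sum.inr i => mkPle Set.univ (fun S => (bit S (4 * (n / 4) + i)).toNat) (tie n)
      (fun S T _ _ hST => by
        have h := bit_mono hST.1 (4 * (n / 4) + i)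
        revert h
        cases bit S (4 * (n / 4) + i) <;> cases bit T (4 * (n / 4) + i) <;> simp) tie_lt (tie_inj n)

theorem fam_real (n : ℕ) (S T : Finset (Fin n)) (h : ¬ T ≤ S) : ∃ i, Before (fam n i) S T := by
  obtain ⟨x, hxT, hxS⟩ := Finset.not_subset.1 h
  have hbT : bit T x = true := by
    simp only [bit, decide_eq_true_eq]
    exact ⟨x.2, hxT⟩
  have hbS : bit S x = false := by
    simp only [bit, decide_eq_false_iff_not]
    rintro ⟨_, h'⟩
    exact hxS h'
  by_cases hx : (x : ℕ) < 4 * (n / 4)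
  · have hb : (x : ℕ) / 4 < n / 4 := by omega
    have key := tab_real (bit S (4 * (x / 4))) (bit S (4 * (x / 4) + 1))
      (bit S (4 * (x / 4) + 2)) (bit S (4 * (x / 4) + 3)) (bit T (4 * (x / 4)))
      (bit T (4 * (x / 4) + 1)) (bit T (4 * (x / 4) + 2)) (bit T (4 * (x / 4) + 3)) (by
        rintro ⟨h0, h1, h2, h3⟩
        have h4 : (x : ℕ) % 4 = 0 ∨ (x : ℕ) % 4 = 1 ∨ (x : ℕ) % 4 = 2 ∨ (x : ℕ) % 4 = 3 := by omega
        rcases h4 with h4 | h4 | h4 | h4
        · have e : 4 * ((x : ℕ) / 4) = x := by omega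
          rw [e, hbT, hbS] at h0
          simp at h0
        · have e : 4 * ((x : ℕ) / 4) + 1 = x := by omega
          rw [e, hbT, hbS] at h1
          simp at h1
        · have e : 4 * ((x : ℕ) / 4) + 2 = x := by omega
          rw [e, hbT, hbS] at h2
          simp at h2
        · have e : 4 * ((x : ℕ) / 4) + 3 = x := by omega
          rw [e, hbT, hbS] at h3
          simp at h3)
    obtain ⟨t, h1, h2, h3⟩ := key
    exact ⟨Sum.inl (⟨x / 4, hb⟩, t), h1, h2, Or.inl h3⟩
  · have hr : (x : ℕ) - 4 * (n / 4) < n - 4 * (n / 4) := by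
      have := x.2
      omega
    refine ⟨Sum.inr ⟨x - 4 * (n / 4), hr⟩, Set.mem_univ _, Set.mem_univ _, Or.inl ?_⟩
    have e : 4 * (n / 4) + ((x : ℕ) - 4 * (n / 4)) = x := by omega
    show (bit S (4 * (n / 4) + ((x : ℕ) - 4 * (n / 4)))).toNat <
      (bit T (4 * (n / 4) + ((x : ℕ) - 4 * (n / 4)))).toNat
    rw [e, hbT, hbS]
    decide

open Classical in
theorem fam_freq (n : ℕ) (S : Finset (Fin n)) :
    {i | S ∈ (fam n i).carrier}.encard ≤ ((n - n / 4 : ℕ) : ℕ∞) := by
  have e : {i | S ∈ (fam n i).carrier} =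
      ((Finset.univ.filter fun i => S ∈ (fam n i).carrier : Finset _) : Set _) := by
    ext i
    simp
  rw [e, Set.encard_coe_eq_coe_finsetCard, Finset.card_filter, Fintype.sum_sum_type,
    Fintype.sum_prod_type]
  have h1 : ∀ b : Fin (n / 4),
      (∑ t : Fin 4, if S ∈ (fam n (Sum.inl (b, t))).carrier then 1 else 0) = 3 := by
    intro b
    rw [← tab_freq (bit S (4 * b)) (bit S (4 * b + 1)) (bit S (4 * b + 2)) (bit S (4 * b + 3))]
    apply Finset.sum_congr rfl
    intro t _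
    congr 1
  have h2 : (∑ i : Fin (n - 4 * (n / 4)), if S ∈ (fam n (Sum.inr i)).carrier then 1 else 0) ≤
      n - 4 * (n / 4) := by
    calc _ ≤ ∑ i : Fin (n - 4 * (n / 4)), 1 := Finset.sum_le_sum fun i _ => by split_ifs <;> simp
      _ = n - 4 * (n / 4) := by simp
  have h3 : (∑ b : Fin (n / 4),
      ∑ t : Fin 4, if S ∈ (fam n (Sum.inl (b, t))).carrier then 1 else 0) = 3 * (n / 4) := by
    rw [Finset.sum_congr rfl fun b _ => h1 b]
    simp [mul_comm]
  rw [h3]
  have h4 : 3 * (n / 4) +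
      (∑ i : Fin (n - 4 * (n / 4)), if S ∈ (fam n (Sum.inr i)).carrier then 1 else 0) ≤
      n - n / 4 := by omega
  exact_mod_cast h4

theorem ldim_upper (n : ℕ) : ldim (Finset (Fin n)) ≤ ((n - n / 4 : ℕ) : ℕ∞) :=
  ldim_le (fam n) (fam_real n) _ (fam_freq n)

theorem Before.asymm {X : Type} [PartialOrder X] {L : Ple X} {x y : X} (h : Before L x y)
    (h' : Before L y x) : False := by
  obtain ⟨hx, hy, h1⟩ := h
  obtain ⟨_, _, h2⟩ := h'
  exact L.irrefl _ (L.trans _ _ _ h1 h2)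

theorem Before.trans {X : Type} [PartialOrder X] {L : Ple X} {x y z : X} (h : Before L x y)
    (h' : Before L y z) : Before L x z := by
  obtain ⟨hx, hy, h1⟩ := h
  obtain ⟨_, hz, h2⟩ := h'
  exact ⟨hx, hz, L.trans _ _ _ h1 h2⟩

/-- two incomparable elements are in two different members of a local realizer -/
theorem two_members {X : Type} [PartialOrder X] {F : Set (Ple X)} (hF : IsLocalRealizer F)
    {x y : X} (h1 : ¬ x ≤ y) (h2 : ¬ y ≤ x) :
    ∃ L₁ ∈ F, ∃ L₂ ∈ F, L₁ ≠ L₂ ∧ (x ∈ L₁.carrier ∧ y ∈ L₁.carrier) ∧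
      (x ∈ L₂.carrier ∧ y ∈ L₂.carrier) := by
  obtain ⟨L₁, hL₁, L₂, hL₂, hb₁, hb₂⟩ := hF.2 x y h1 h2
  refine ⟨L₁, hL₁, L₂, hL₂, ?_, ⟨hb₁.1, hb₁.2.1⟩, ⟨hb₂.2.1, hb₂.1⟩⟩
  rintro rfl
  exact hb₁.asymm hb₂

theorem pair_encard {X : Type} [PartialOrder X] {F : Set (Ple X)} {x : X} {L₁ L₂ : Ple X}
    (h1 : L₁ ∈ F) (h2 : L₂ ∈ F) (h : L₁ ≠ L₂) (hx1 : x ∈ L₁.carrier) (hx2 : x ∈ L₂.carrier) :
    2 ≤ {L | L ∈ F ∧ x ∈ L.carrier}.encard := by
  rw [← Set.encard_pair h]
  apply Set.encard_le_encard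
  rintro L (rfl | rfl)
  · exact ⟨h1, hx1⟩
  · exact ⟨h2, hx2⟩

theorem pair_eq {X : Type} [PartialOrder X] {F : Set (Ple X)} {x : X} {L₁ L₂ : Ple X}
    (h1 : L₁ ∈ F) (h2 : L₂ ∈ F) (h : L₁ ≠ L₂) (hx1 : x ∈ L₁.carrier) (hx2 : x ∈ L₂.carrier)
    (hle : {L | L ∈ F ∧ x ∈ L.carrier}.encard ≤ 2) :
    {L | L ∈ F ∧ x ∈ L.carrier} = {L₁, L₂} := by
  have hsub : ({L₁, L₂} : Set (Ple X)) ⊆ {L | L ∈ F ∧ x ∈ L.carrier} := by
    rintro L (rfl | rfl)
    · exact ⟨h1, hx1⟩
    · exact ⟨h2, hx2⟩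
  refine (Set.Finite.eq_of_subset_of_encard_le (Set.toFinite _) hsub ?_).symm
  rw [Set.encard_pair h]
  exact hle

theorem same {X : Type} [PartialOrder X] {F : Set (Ple X)} (hF : IsLocalRealizer F)
    (hle : ∀ x : X, {L | L ∈ F ∧ x ∈ L.carrier}.encard ≤ 2) {x y : X} (h1 : ¬ x ≤ y)
    (h2 : ¬ y ≤ x) : {L | L ∈ F ∧ x ∈ L.carrier} = {L | L ∈ F ∧ y ∈ L.carrier} := by
  obtain ⟨L₁, hL₁, L₂, hL₂, hne, ⟨a, b⟩, c, d⟩ := two_members hF h1 h2
  rw [pair_eq hL₁ hL₂ hne a c (hle x), pair_eq hL₁ hL₂ hne b d (hle y)]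

theorem ldim_lower_three : 3 ≤ ldim (Finset (Fin 3)) := by
  refine le_iInf₂ fun F hF => ?_
  by_contra hlt
  have hle : ∀ x : Finset (Fin 3), {L | L ∈ F ∧ x ∈ L.carrier}.encard ≤ 2 := by
    intro x
    have h1 : {L | L ∈ F ∧ x ∈ L.carrier}.encard < 3 :=
      (le_iSup (fun x : Finset (Fin 3) => {L | L ∈ F ∧ x ∈ L.carrier}.encard) x).trans_lt
        (not_le.1 hlt)
    have h2 : (3 : ℕ∞) = 2 + 1 := by norm_num
    rw [h2] at h1
    exact Order.le_of_lt_add_one h1
  have hinc : ∀ i j : Fin 3, i ≠ j → ¬ ({i} : Finset (Fin 3)) ≤ {j} := by decide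
  have hinc2 : ∀ i : Fin 3, ¬ ({i} : Finset (Fin 3)) ≤ {i}ᶜ := by decide
  have hinc3 : ∀ i : Fin 3, ¬ ({i}ᶜ : Finset (Fin 3)) ≤ {i} := by decide
  have hlt2 : ∀ i j : Fin 3, i ≠ j → ({i} : Finset (Fin 3)) < {j}ᶜ := by decide
  obtain ⟨L₁, hL₁, L₂, hL₂, hne, ⟨a, b⟩, c, d⟩ :=
    two_members hF (hinc 0 1 (by decide)) (hinc 1 0 (by decide))
  have h0 : {L | L ∈ F ∧ ({0} : Finset (Fin 3)) ∈ L.carrier} = {L₁, L₂} :=
    pair_eq hL₁ hL₂ hne a c (hle _)
  have hs : ∀ i : Fin 3, {L | L ∈ F ∧ ({i} : Finset (Fin 3)) ∈ L.carrier} = {L₁, L₂} := by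
    intro i
    by_cases hi : i = 0
    · rw [hi]; exact h0
    · rw [← h0]
      exact same hF hle (hinc i 0 hi) (hinc 0 i (Ne.symm hi))
  have hc : ∀ i : Fin 3, {L | L ∈ F ∧ ({i}ᶜ : Finset (Fin 3)) ∈ L.carrier} = {L₁, L₂} := by
    intro i
    rw [← hs i]
    exact (same hF hle (hinc2 i) (hinc3 i)).symm
  have hmem : ∀ (x : Finset (Fin 3)), {L | L ∈ F ∧ x ∈ L.carrier} = {L₁, L₂} →
      ∀ L, (L = L₁ ∨ L = L₂) → x ∈ L.carrier := by
    intro x hx L hL
    have : L ∈ {L | L ∈ F ∧ x ∈ L.carrier} := by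
      rw [hx]
      exact hL
    exact this.2
  have hrev : ∀ i : Fin 3, ∃ L, (L = L₁ ∨ L = L₂) ∧ Before L {i}ᶜ {i} := by
    intro i
    obtain ⟨L, hL, _, _, hb, _⟩ := hF.2 _ _ (hinc3 i) (hinc2 i)
    refine ⟨L, ?_, hb⟩
    have : L ∈ {L | L ∈ F ∧ ({i} : Finset (Fin 3)) ∈ L.carrier} := ⟨hL, hb.2.1⟩
    rw [hs i] at this
    exact this
  have hone : ∀ L, (L = L₁ ∨ L = L₂) → ∀ i j : Fin 3, i ≠ j → Before L {i}ᶜ {i} →
      Before L {j}ᶜ {j} → False := by
    intro L hL i j hij hi hj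
    have h1 : Before L {i} {j}ᶜ :=
      ⟨hmem _ (hs i) L hL, hmem _ (hc j) L hL, L.ext _ _ (hlt2 i j hij)⟩
    have h2 : Before L {j} {i}ᶜ :=
      ⟨hmem _ (hs j) L hL, hmem _ (hc i) L hL, L.ext _ _ (hlt2 j i (Ne.symm hij))⟩
    exact ((hi.trans h1).trans hj).asymm h2
  obtain ⟨K₀, hK₀, hb₀⟩ := hrev 0
  obtain ⟨K₁, hK₁, hb₁⟩ := hrev 1
  obtain ⟨K₂, hK₂, hb₂⟩ := hrev 2
  rcases hK₀ with rfl | rfl <;> rcases hK₁ with rfl | rfl <;> rcases hK₂ with rfl | rfl
  · exact hone _ (Or.inl rfl) 0 1 (by decide) hb₀ hb₁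
  · exact hone _ (Or.inl rfl) 0 1 (by decide) hb₀ hb₁
  · exact hone _ (Or.inl rfl) 0 2 (by decide) hb₀ hb₂
  · exact hone _ (Or.inr rfl) 1 2 (by decide) hb₁ hb₂
  · exact hone _ (Or.inl rfl) 1 2 (by decide) hb₁ hb₂
  · exact hone _ (Or.inr rfl) 0 2 (by decide) hb₀ hb₂
  · exact hone _ (Or.inr rfl) 0 1 (by decide) hb₀ hb₁
  · exact hone _ (Or.inr rfl) 0 1 (by decide) hb₀ hb₁

theorem ldim_lower_two : 2 ≤ ldim (Finset (Fin 2)) := by
  refine le_iInf₂ fun F hF => ?_
  obtain ⟨L₁, hL₁, L₂, hL₂, hne, ⟨a, b⟩, c, d⟩ :=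
    two_members hF (x := ({0} : Finset (Fin 2))) (y := {1}) (by decide) (by decide)
  exact (pair_encard hL₁ hL₂ hne a c).trans
    (le_iSup (fun x : Finset (Fin 2) => {L | L ∈ F ∧ x ∈ L.carrier}.encard) {0})

theorem ldim_lower_one : 1 ≤ ldim (Finset (Fin 1)) := by
  refine le_iInf₂ fun F hF => ?_
  obtain ⟨L, hL, hx, _⟩ := hF.1 (∅ : Finset (Fin 1)) {0} (by decide)
  refine le_trans ?_ (le_iSup (fun x : Finset (Fin 1) => {L | L ∈ F ∧ x ∈ L.carrier}.encard) ∅)
  rw [Set.one_le_encard_iff_nonempty]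
  exact ⟨L, hL, hx⟩

/-- For all `n` the local dimension of the Boolean lattice of the subsets of an `n`-element set is
at most `n - n / 4` (integer division), and it is equal to `n` if and only if `n ≤ 3`. -/
theorem result : ∀ n : ℕ, ldim (Finset (Fin n)) ≤ ((n - n / 4 : ℕ) : ℕ∞) ∧
    (ldim (Finset (Fin n)) = (n : ℕ∞) ↔ n ≤ 3) := by
  intro n
  refine ⟨ldim_upper n, ?_, ?_⟩
  · intro h
    have h1 := ldim_upper n
    rw [h] at h1
    have h2 : n ≤ n - n / 4 := by exact_mod_cast h1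
    omega
  · intro h
    have h1 := ldim_upper n
    have h2 : n - n / 4 = n := by omega
    rw [h2] at h1
    refine le_antisymm h1 ?_
    interval_cases n
    · simp
    · exact_mod_cast ldim_lower_one
    · exact_mod_cast ldim_lower_two
    · exact_mod_cast ldim_lower_three

end Pool.Agent.Results.MP_666a49_co.BooleanLattice
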